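import Mathlib

open Metric Set

namespace Pool.Agent.Results.MP_77b5a8_co.NoEquality

/-- The Euclidean plane. -/
abbrev Pl := EuclideanSpace ℝ (Fin 2)

/-- The axis-parallel closed square `[0,s]²` of side `s`. -/
def sq (s : ℝ) : Set Pl := {x | ∀ i, 0 ≤ x i ∧ x i ≤ s}

/-- `Packs n s`: the square of side `s` contains `n` closed unit discs with pairwise disjoint
interiors. -/
def Packs (n : ℕ) (s : ℝ) : Prop :=
  ∃ c : Fin n → Pl, (∀ i, closedBall (c i) 1 ⊆ sq s) ∧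
    ∀ i j, i ≠ j → Disjoint (interior (closedBall (c i) 1)) (interior (closedBall (c j) 1))

/-- `side n` is the least side length of a square containing `n` nonoverlapping unit discs. -/
noncomputable def side (n : ℕ) : ℝ := sInf {s : ℝ | 0 ≤ s ∧ Packs n s}

/-- The quadratic of the problem. -/
noncomputable def F (s : ℝ) : ℝ := s ^ 2 - (3 + √3) * s + 2 + 2 * √3

lemma closedBall_subset_sq {c : Pl} {s : ℝ} (h : ∀ i, 1 ≤ c i ∧ c i ≤ s - 1) :
    closedBall c 1 ⊆ sq s := by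
  intro x hx i
  have h1 : |x i - c i| ≤ 1 := by
    have h2 : ‖(x - c) i‖ ≤ ‖x - c‖ := PiLp.norm_apply_le (x - c) i
    have h3 : ‖x - c‖ ≤ 1 := by
      rw [← dist_eq_norm]; exact mem_closedBall.1 hx
    have h4 : |x i - c i| = ‖(x - c) i‖ := by simp
    rw [h4]; exact h2.trans h3
  have := abs_le.1 h1
  have := h i
  constructor <;> linarith [this.1, this.2]

lemma sub_closedBall {c : Pl} {s : ℝ} (h : closedBall c 1 ⊆ sq s) (i : Fin 2) :
    1 ≤ c i ∧ c i ≤ s - 1 := by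
  have key : ∀ t : ℝ, |t| ≤ 1 → c + EuclideanSpace.single i t ∈ closedBall c 1 := by
    intro t ht
    rw [mem_closedBall, dist_eq_norm]
    simpa using ht
  have h1 := (h (key (-1) (by norm_num))) i
  have h2 := (h (key 1 (by norm_num))) i
  simp at h1 h2
  constructor <;> linarith [h1.1, h2.2]

lemma disj_iff {a b : Pl} :
    Disjoint (interior (closedBall a 1)) (interior (closedBall b 1)) ↔ 2 ≤ dist a b := by
  rw [interior_closedBall _ one_ne_zero, interior_closedBall _ one_ne_zero]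
  constructor
  · intro h
    by_contra hlt
    push Not at hlt
    have hm : midpoint ℝ a b ∈ ball a 1 ∩ ball b 1 := by
      constructor
      · rw [mem_ball, dist_midpoint_left]
        simp
        linarith
      · rw [mem_ball, dist_midpoint_right]
        simp
        linarith
    exact (Set.disjoint_left.1 h hm.1) hm.2
  · intro h
    exact ball_disjoint_ball (by linarith)

/-- Reformulation by centres. -/
lemma packs_iff {n : ℕ} {s : ℝ} :
    Packs n s ↔ ∃ c : Fin n → Pl, (∀ i k, 1 ≤ c i k ∧ c i k ≤ s - 1) ∧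
      ∀ i j, i ≠ j → 2 ≤ dist (c i) (c j) := by
  constructor
  · rintro ⟨c, h1, h2⟩
    exact ⟨c, fun i k => sub_closedBall (h1 i) k, fun i j hij => disj_iff.1 (h2 i j hij)⟩
  · rintro ⟨c, h1, h2⟩
    exact ⟨c, fun i => closedBall_subset_sq (h1 i), fun i j hij => disj_iff.2 (h2 i j hij)⟩

/-- Points of a triangular lattice. -/
noncomputable def pt (p : ℕ × ℕ) : Pl := !₂[1 + (p.1 : ℝ), 1 + √3 * (p.2 : ℝ)]

lemma dist_pt {p q : ℕ × ℕ} (hpq : p ≠ q) (hpar : (p.1 + p.2) % 2 = (q.1 + q.2) % 2) :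
    2 ≤ dist (pt p) (pt q) := by
  obtain ⟨a, b⟩ := p
  obtain ⟨a', b'⟩ := q
  simp only at hpar
  rw [EuclideanSpace.dist_eq]
  simp only [pt, Fin.sum_univ_two, Real.dist_eq, sq_abs]
  apply Real.le_sqrt_of_sq_le
  have h3 : √3 ^ 2 = 3 := Real.sq_sqrt (by norm_num)
  have e : (1 + (a : ℝ) - (1 + (a' : ℝ))) ^ 2 + (1 + √3 * (b : ℝ) - (1 + √3 * (b' : ℝ))) ^ 2
      = (((a : ℤ) - a') ^ 2 + 3 * ((b : ℤ) - b') ^ 2 : ℤ) := by
    push_cast
    have : (1 + √3 * (b : ℝ) - (1 + √3 * (b' : ℝ))) ^ 2 = √3 ^ 2 * ((b : ℝ) - b') ^ 2 := by ring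
    rw [this, h3]; ring
  have h4 : (4 : ℤ) ≤ ((a : ℤ) - a') ^ 2 + 3 * ((b : ℤ) - b') ^ 2 := by
    obtain ⟨x, hx⟩ : ∃ x : ℤ, x = (a : ℤ) - a' := ⟨_, rfl⟩
    obtain ⟨y, hy⟩ : ∃ y : ℤ, y = (b : ℤ) - b' := ⟨_, rfl⟩
    rw [← hx, ← hy]
    have hxy : (x + y) % 2 = 0 := by omega
    have hne : ¬ (x = 0 ∧ y = 0) := by
      rintro ⟨h1, h2⟩
      apply hpq
      ext <;> simp <;> omega
    by_cases hy0 : y = 0
    · subst hy0
      have hx2 : x ≤ -2 ∨ 2 ≤ x := by
        by_contra hcon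
        push Not at hcon
        apply hne
        omega
      rcases hx2 with h | h <;> nlinarith
    · have hy1 : 1 ≤ y ^ 2 := by
        rcases lt_or_gt_of_ne hy0 with h | h <;> nlinarith
      by_cases hx0 : x = 0
      · subst hx0
        have hy2 : y ≤ -2 ∨ 2 ≤ y := by omega
        rcases hy2 with h | h <;> nlinarith
      · have hx1 : 1 ≤ x ^ 2 := by
          rcases lt_or_gt_of_ne hx0 with h | h <;> nlinarith
        nlinarith
  have h5 : (4 : ℝ) ≤ ((((a : ℤ) - a') ^ 2 + 3 * ((b : ℤ) - b') ^ 2 : ℤ) : ℝ) := by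
    exact_mod_cast h4
  change (2 : ℝ) ^ 2 ≤ (1 + (a : ℝ) - (1 + (a' : ℝ))) ^ 2 +
    (1 + √3 * (b : ℝ) - (1 + √3 * (b' : ℝ))) ^ 2
  rw [e]
  linarith

/-- A square of side `s` with `(s-2)² ≥ √12 (n-1)` contains `n` nonoverlapping unit discs. -/
lemma packs_of_le {n : ℕ} {s : ℝ} (hs : 2 ≤ s) (hn : √12 * ((n : ℝ) - 1) ≤ (s - 2) ^ 2) :
    Packs n s := by
  rw [packs_iff]
  set T := ⌊s - 2⌋₊ with hT
  set R := ⌊(s - 2) / √3⌋₊ with hR
  have h3 : 0 < √3 := by positivity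
  have hT1 : (T : ℝ) ≤ s - 2 := Nat.floor_le (by linarith)
  have hT2 : s - 2 < (T : ℝ) + 1 := Nat.lt_floor_add_one _
  have hR1 : (R : ℝ) ≤ (s - 2) / √3 := Nat.floor_le (by apply div_nonneg <;> linarith)
  have hR2 : (s - 2) / √3 < (R : ℝ) + 1 := Nat.lt_floor_add_one _
  have hR3 : √3 * (R : ℝ) ≤ s - 2 := by
    rw [le_div_iff₀ h3] at hR1; linarith
  have hR4 : s - 2 < √3 * ((R : ℝ) + 1) := by
    rw [div_lt_iff₀ h3] at hR2; linarith
  let G := Finset.range (T + 1) ×ˢ Finset.range (R + 1)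
  have hG : G.card = (T + 1) * (R + 1) := by simp [G]
  have hsum : (G.filter (fun p => (p.1 + p.2) % 2 = 0)).card +
      (G.filter (fun p => ¬ (p.1 + p.2) % 2 = 0)).card = G.card :=
    Finset.card_filter_add_card_filter_not _
  -- one parity class has at least `n` points
  have hcard : ∃ A : Finset (ℕ × ℕ), A ⊆ G ∧
      (∀ p ∈ A, ∀ q ∈ A, (p.1 + p.2) % 2 = (q.1 + q.2) % 2) ∧ n ≤ A.card := by
    have hlt : (n : ℝ) - 1 < ((T : ℝ) + 1) * ((R : ℝ) + 1) / 2 := by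
      have h12 : √12 = 2 * √3 := by
        rw [show (12 : ℝ) = 2 ^ 2 * 3 by norm_num, Real.sqrt_mul (by norm_num),
          Real.sqrt_sq (by norm_num)]
      rw [h12] at hn
      have hprod : (s - 2) ^ 2 < (√3 * ((R : ℝ) + 1)) * ((T : ℝ) + 1) := by
        have h0 : 0 ≤ s - 2 := by linarith
        nlinarith
      have : 2 * √3 * ((n : ℝ) - 1) < 2 * √3 * (((T : ℝ) + 1) * ((R : ℝ) + 1) / 2) := by
        linarith
      exact lt_of_mul_lt_mul_left this (by positivity)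
    have hnat : 2 * n < G.card + 2 := by
      rw [hG]
      have : (2 * (n : ℝ)) < ((T : ℝ) + 1) * ((R : ℝ) + 1) + 2 := by linarith
      exact_mod_cast this
    by_cases hev : n ≤ (G.filter (fun p => (p.1 + p.2) % 2 = 0)).card
    · refine ⟨_, Finset.filter_subset _ _, ?_, hev⟩
      intro p hp q hq
      rw [(Finset.mem_filter.1 hp).2, (Finset.mem_filter.1 hq).2]
    · refine ⟨G.filter (fun p => ¬ (p.1 + p.2) % 2 = 0), Finset.filter_subset _ _, ?_, ?_⟩
      · intro p hp q hq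
        have := (Finset.mem_filter.1 hp).2
        have := (Finset.mem_filter.1 hq).2
        omega
      · omega
  obtain ⟨A, hAG, hApar, hAn⟩ := hcard
  obtain ⟨B, hBA, hBn⟩ := Finset.exists_subset_card_eq hAn
  let e : Fin n ≃ B := (Fin.castOrderIso hBn.symm).toEquiv.trans B.equivFin.symm
  refine ⟨fun i => pt (e i).1, ?_, ?_⟩
  · intro i k
    have hm := hAG (hBA (e i).2)
    simp only [G, Finset.mem_product, Finset.mem_range] at hm
    have h1 : (((e i).1.1 : ℕ) : ℝ) ≤ T := by exact_mod_cast Nat.lt_succ_iff.1 hm.1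
    have h2 : (((e i).1.2 : ℕ) : ℝ) ≤ R := by exact_mod_cast Nat.lt_succ_iff.1 hm.2
    have h1' : (0 : ℝ) ≤ (((e i).1.1 : ℕ) : ℝ) := Nat.cast_nonneg _
    have h2' : (0 : ℝ) ≤ (((e i).1.2 : ℕ) : ℝ) := Nat.cast_nonneg _
    have h2b : √3 * (((e i).1.2 : ℕ) : ℝ) ≤ √3 * R := mul_le_mul_of_nonneg_left h2 h3.le
    have h2c : 0 ≤ √3 * (((e i).1.2 : ℕ) : ℝ) := by positivity
    fin_cases k
    · change 1 ≤ 1 + (((e i).1.1 : ℕ) : ℝ) ∧ 1 + (((e i).1.1 : ℕ) : ℝ) ≤ s - 1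
      constructor <;> linarith
    · change 1 ≤ 1 + √3 * (((e i).1.2 : ℕ) : ℝ) ∧ 1 + √3 * (((e i).1.2 : ℕ) : ℝ) ≤ s - 1
      constructor <;> linarith
  · intro i j hij
    apply dist_pt
    · intro h
      exact hij (e.injective (Subtype.ext h))
    · exact hApar _ (hBA (e i).2) _ (hBA (e j).2)

lemma packs_two_le {n : ℕ} (hn : 1 ≤ n) {s : ℝ} (h : Packs n s) : 2 ≤ s := by
  obtain ⟨c, hc, -⟩ := packs_iff.1 h
  have := hc ⟨0, hn⟩ 0
  linarith [this.1, this.2]

/-- Compactness: the set of admissible side lengths is closed. -/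
lemma isClosed_packs (n : ℕ) : IsClosed {s : ℝ | 0 ≤ s ∧ Packs n s} := by
  rw [← isSeqClosed_iff_isClosed]
  intro u a hu ha
  have hb : ∃ M : ℝ, ∀ k, u k ≤ M := by
    obtain ⟨M, hM⟩ := ha.bddAbove_range
    exact ⟨M, fun k => hM ⟨k, rfl⟩⟩
  obtain ⟨M, hM⟩ := hb
  refine ⟨ge_of_tendsto' ha (fun k => (hu k).1), ?_⟩
  have hc : ∀ k, ∃ c : Fin n → Pl, (∀ i l, 1 ≤ c i l ∧ c i l ≤ u k - 1) ∧
      ∀ i j, i ≠ j → 2 ≤ dist (c i) (c j) := fun k => packs_iff.1 (hu k).2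
  choose c hc1 hc2 using hc
  -- all centre tuples lie in a compact set
  let K : Set Pl := closedBall 0 (2 * |M|)
  have hK : IsCompact (Set.univ.pi (fun _ : Fin n => K)) :=
    isCompact_univ_pi (fun _ => isCompact_closedBall _ _)
  have hmem : ∀ k, c k ∈ Set.univ.pi (fun _ : Fin n => K) := by
    intro k i _
    rw [mem_closedBall, dist_zero_right]
    rw [EuclideanSpace.norm_eq]
    apply Real.sqrt_le_iff.2
    refine ⟨by positivity, ?_⟩
    rw [Fin.sum_univ_two]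
    have h0 := hc1 k i 0
    have h1 := hc1 k i 1
    have hMk := hM k
    have hMM := le_abs_self M
    have e0 : ‖(c k i) 0‖ ^ 2 ≤ |M| ^ 2 := by
      rw [Real.norm_eq_abs, sq_abs]
      nlinarith [h0.1, h0.2]
    have e1 : ‖(c k i) 1‖ ^ 2 ≤ |M| ^ 2 := by
      rw [Real.norm_eq_abs, sq_abs]
      nlinarith [h1.1, h1.2]
    nlinarith [sq_nonneg |M|]
  obtain ⟨d, -, φ, hφ, hlim⟩ := hK.tendsto_subseq hmem
  rw [packs_iff]
  have hu' : Filter.Tendsto (u ∘ φ) Filter.atTop (nhds a) := ha.comp hφ.tendsto_atTop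
  have hlim' : ∀ i, Filter.Tendsto (fun k => c (φ k) i) Filter.atTop (nhds (d i)) := fun i =>
    (tendsto_pi_nhds.1 hlim) i
  refine ⟨d, fun i l => ?_, fun i j hij => ?_⟩
  · have hl : Filter.Tendsto (fun k => c (φ k) i l) Filter.atTop (nhds (d i l)) := by
      have : Continuous (fun x : Pl => x l) := by fun_prop
      exact (this.tendsto (d i)).comp (hlim' i)
    constructor
    · exact ge_of_tendsto' hl (fun k => (hc1 (φ k) i l).1)
    · have h2 : Filter.Tendsto (fun k => u (φ k) - 1) Filter.atTop (nhds (a - 1)) :=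
        hu'.sub_const 1
      exact le_of_tendsto_of_tendsto' hl h2 (fun k => (hc1 (φ k) i l).2)
  · have hd : Filter.Tendsto (fun k => dist (c (φ k) i) (c (φ k) j)) Filter.atTop
        (nhds (dist (d i) (d j))) := (hlim' i).dist (hlim' j)
    exact ge_of_tendsto' hd (fun k => hc2 (φ k) i j hij)

/-- The least side length is attained. -/
lemma isLeast_side (n : ℕ) : IsLeast {s : ℝ | 0 ≤ s ∧ Packs n s} (side n) := by
  have hbdd : BddBelow {s : ℝ | 0 ≤ s ∧ Packs n s} := ⟨0, fun s hs => hs.1⟩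
  have hne : {s : ℝ | 0 ≤ s ∧ Packs n s}.Nonempty := by
    have h12 : 0 ≤ √12 := Real.sqrt_nonneg _
    refine ⟨2 + √12 * (n + 1), by positivity, packs_of_le ?_ ?_⟩
    · have : 0 ≤ √12 * ((n : ℝ) + 1) := by positivity
      linarith
    · have h1 : (1 : ℝ) ≤ √12 := by
        rw [Real.one_le_sqrt]; norm_num
      have e : 2 + √12 * ((n : ℝ) + 1) - 2 = √12 * ((n : ℝ) + 1) := by ring
      rw [e]
      have h2 : (0 : ℝ) ≤ n := Nat.cast_nonneg _
      have h3 : √12 * ((n : ℝ) - 1) ≤ √12 * ((n : ℝ) + 1) * 1 := by nlinarith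
      have h4 : √12 * ((n : ℝ) + 1) * 1 ≤ √12 * ((n : ℝ) + 1) * (√12 * ((n : ℝ) + 1)) := by
        apply mul_le_mul_of_nonneg_left _ (by positivity)
        nlinarith
      nlinarith
  exact ⟨(isClosed_packs n).csInf_mem hne hbdd, fun s hs => csInf_le hbdd hs⟩

/-- Lower bound for packings: `(s_n - 2)² ≤ √12 (n - 1)`. -/
lemma side_bound {n : ℕ} (hn : 1 ≤ n) : (side n - 2) ^ 2 ≤ √12 * ((n : ℝ) - 1) := by
  have hL := isLeast_side n
  have h2 : 2 ≤ side n := packs_two_le hn hL.1.2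
  by_contra hcon
  push Not at hcon
  have h0 : 0 ≤ √12 * ((n : ℝ) - 1) := by
    have : (1 : ℝ) ≤ n := by exact_mod_cast hn
    have := Real.sqrt_nonneg (12 : ℝ)
    apply mul_nonneg <;> linarith
  -- the smaller square of side `2 + √(√12 (n-1))` already contains `n` discs
  have hs : Packs n (2 + √(√12 * ((n : ℝ) - 1))) := by
    apply packs_of_le
    · linarith [Real.sqrt_nonneg (√12 * ((n : ℝ) - 1))]
    · have e : 2 + √(√12 * ((n : ℝ) - 1)) - 2 = √(√12 * ((n : ℝ) - 1)) := by ring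
      rw [e, Real.sq_sqrt h0]
  have hle := hL.2 ⟨by positivity, hs⟩
  have hlt : √(√12 * ((n : ℝ) - 1)) < side n - 2 := by
    rw [Real.sqrt_lt' ?_]
    · exact hcon
    · nlinarith [Real.sqrt_nonneg (√12 * ((n : ℝ) - 1))]
  linarith

/-- For every `n ≥ 1` the least side `s_n` is attained and satisfies
`(s_n-2)² ≤ √12 (n-1)`; consequently the equality `√12 n = F(s_n)` holds for no `n ≥ 1`,
in particular only finitely often. -/
theorem result :
    (∀ n : ℕ, 1 ≤ n → IsLeast {s : ℝ | 0 ≤ s ∧ Packs n s} (side n) ∧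
      (side n - 2) ^ 2 ≤ √12 * ((n : ℝ) - 1)) ∧
    {n : ℕ | 1 ≤ n ∧ √12 * (n : ℝ) = F (side n)} = ∅ := by
  refine ⟨fun n hn => ⟨isLeast_side n, side_bound hn⟩, ?_⟩
  rw [Set.eq_empty_iff_forall_notMem]
  rintro n ⟨hn, heq⟩
  have hb := side_bound hn
  have h2 : 2 ≤ side n := packs_two_le hn (isLeast_side n).1.2
  have h12 : 0 < √12 := by positivity
  have h3 : 1 ≤ √3 := by rw [Real.one_le_sqrt]; norm_num
  have e : F (side n) = (side n - 2) ^ 2 - (√3 - 1) * (side n - 2) := by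
    unfold F; ring
  rw [e] at heq
  have : 0 ≤ (√3 - 1) * (side n - 2) := mul_nonneg (by linarith) (by linarith)
  nlinarith

end Pool.Agent.Results.MP_77b5a8_co.NoEquality
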